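import Pool.Agent.ZES.StmtsB

/-!
Squad ZES, block B, row CNT (separation of the points).
-/

set_option autoImplicit false

namespace Pool.Agent.ZES.H7

open scoped BigOperators InnerProductSpace
open Pool.Agent.ZES

/-- **Row CNT** -/
theorem cnt (h1 : PhiStmt) (h2 : PoiStmt) : CntStmt := by
  intro V _ _ _ L χ hL W hW m' r s hr lam f hinc hf hz hW0 hJ ht
  have hper : ∀ i j k, ∀ ω ∈ L, f i j (lam k + ω) = 0 := by
    intro i j k ω hω
    have h' : ∀ ω ∈ L, ∀ x : V, f i j (x + ω) =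
        χ ω ^ m' * al (Real.pi * (m' : ℝ)) ω x * f i j x := (hf i j).2
    rw [h' ω hω (lam k), hz i j k, mul_zero]
  have key : ∀ i, ∃ F ∈ TN L χ (r * m' + 2), F (lam i) ≠ 0 ∧
      ∀ k, k ≠ i → F (lam k) = 0 := by
    intro i
    obtain ⟨P, C, hP1, hP2, hP3, hP4, hP5⟩ := h1 V L χ hL W hW m' r hr (lam i) (f i) (hf i)
      (hW0 i) (hJ i) (ht i)
    obtain ⟨F, hF1, hF2, hF3⟩ := h2 V L χ hL W hW (r * m' + 2) P C hP1 hP4 hP5
    refine ⟨F, hF1, ?_, ?_⟩
    · rw [hF3 (lam i)]
      · exact hP2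
      · intro ω hω hωW
        apply hP3
        · rwa [add_sub_cancel_left]
        · intro j
          exact hper i j i ω hω
    · intro k hk
      apply hF2
      intro ω hω
      apply hP3
      · exact hinc i k (Ne.symm hk) ω hω
      · intro j
        exact hper i j k ω hω
  choose F hF using key
  exact ⟨F, fun i => ⟨(hF i).1, (hF i).2.1, (hF i).2.2⟩⟩

end Pool.Agent.ZES.H7
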