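import Pool.Agent.ZES.StmtsZ

/-!
Squad ZES, block Z, row SEP (separated points and dimension).
-/

set_option autoImplicit false

namespace Pool.Agent.ZES.H7

open scoped BigOperators InnerProductSpace
open Pool.Agent.ZES

/-- **Row SEP** -/
theorem sep : SepStmt := by
  intro V A s hA p F hF
  have := hA
  have hli : LinearIndependent ℂ (fun i : Fin s => (⟨F i, (hF i).1⟩ : ↥A)) := by
    rw [Fintype.linearIndependent_iff]
    intro c hc i
    have h1 : ∑ j, c j • F j = 0 := by
      have h2 := congrArg Subtype.val hc
      simpa using h2
    have h3 : ∑ j, c j * F j (p i) = 0 := by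
      have h4 := congrFun h1 (p i)
      simpa [Finset.sum_apply] using h4
    rw [Finset.sum_eq_single i] at h3
    · rcases mul_eq_zero.1 h3 with h | h
      · exact h
      · exact absurd h (hF i).2.1
    · intro j _ hji
      rw [(hF j).2.2 i (Ne.symm hji), mul_zero]
    · intro hi
      exact absurd (Finset.mem_univ i) hi
  have h := hli.fintype_card_le_finrank
  simpa using h

end Pool.Agent.ZES.H7
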