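import Pool.Agent.ZES.StmtsZ

/-!
Squad ZES, block Z, row TNM (products and powers of spaces of theta functions).
-/

set_option autoImplicit false

namespace Pool.Agent.ZES.H7

open scoped BigOperators InnerProductSpace
open Pool.Agent.ZES

/-- **Row TNM** -/
theorem tnm (h1 : AlnStmt) : TnmStmt := by
  intro V _ _ L χ hL
  have hadd : ∀ (a b : ℝ) (ω x : V), al (a + b) ω x = al a ω x * al b ω x :=
    fun a b ω x => (h1 V a b ω 0 x 0).2.2.1
  have htr : ∀ (a : ℝ) (ω x y : V),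
      al a ω (x + y) = al a ω x * Complex.exp ((a : ℂ) * inner ℂ ω y) :=
    fun a ω x y => (h1 V a 0 ω 0 x y).2.1
  have hmul : ∀ a b : ℕ, TN L χ a * TN L χ b ≤ TN L χ (a + b) := by
    intro a b
    rw [Submodule.mul_le]
    rintro p ⟨hp1, hp2⟩ q ⟨hq1, hq2⟩
    refine ⟨hp1.mul hq1, fun ω hω x => ?_⟩
    show p (x + ω) * q (x + ω) = χ ω ^ (a + b) * al (Real.pi * ((a + b : ℕ) : ℝ)) ω x *
      (p x * q x)
    have e1 : Real.pi * ((a + b : ℕ) : ℝ) = Real.pi * (a : ℝ) + Real.pi * (b : ℝ) := by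
      push_cast
      ring
    have e2 : p (x + ω) = χ ω ^ a * al (Real.pi * (a : ℝ)) ω x * p x := hp2 ω hω x
    have e3 : q (x + ω) = χ ω ^ b * al (Real.pi * (b : ℝ)) ω x * q x := hq2 ω hω x
    rw [e1, hadd, e2, e3]
    ring
  refine ⟨hmul, ?_, ?_, ?_⟩
  · intro D m
    induction m with
    | zero =>
      rw [pow_zero, Submodule.one_le]
      refine ⟨differentiable_const 1, fun ω _ x => ?_⟩
      show (1 : ℂ) = χ ω ^ (0 * D) * al (Real.pi * ((0 * D : ℕ) : ℝ)) ω x * 1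
      have e1 : Real.pi * ((0 * D : ℕ) : ℝ) = 0 := by
        rw [zero_mul, Nat.cast_zero, mul_zero]
      have e2 : al (0 : ℝ) ω x = 1 := by
        unfold al
        rw [Complex.ofReal_zero, zero_mul, Complex.exp_zero]
      rw [e1, e2, zero_mul, pow_zero]
      ring
    | succ m ih =>
      rw [pow_succ]
      refine (mul_le_mul' ih le_rfl).trans ((hmul _ _).trans (le_of_eq ?_))
      congr 1
      ring
  · rintro D p ⟨hp1, hp2⟩ q ⟨hq1, hq2⟩ y
    refine ⟨(hp1.comp (differentiable_id.add_const y)).mul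
      (hq1.comp (differentiable_id.sub_const y)), fun ω hω x => ?_⟩
    show p (x + ω + y) * q (x + ω - y) = χ ω ^ (2 * D) * al (Real.pi * ((2 * D : ℕ) : ℝ)) ω x *
      (p (x + y) * q (x - y))
    have e0 : Real.pi * ((2 * D : ℕ) : ℝ) = Real.pi * (D : ℝ) + Real.pi * (D : ℝ) := by
      push_cast
      ring
    have e1 : x + ω + y = (x + y) + ω := by abel
    have e2 : x + ω - y = (x - y) + ω := by abel
    have e3 : p ((x + y) + ω) = χ ω ^ D * al (Real.pi * (D : ℝ)) ω (x + y) * p (x + y) :=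
      hp2 ω hω _
    have e4 : q ((x - y) + ω) = χ ω ^ D * al (Real.pi * (D : ℝ)) ω (x - y) * q (x - y) :=
      hq2 ω hω _
    have e5 : al (Real.pi * (D : ℝ)) ω (x - y) =
        al (Real.pi * (D : ℝ)) ω x *
          Complex.exp (-(((Real.pi * (D : ℝ) : ℝ) : ℂ) * inner ℂ ω y)) := by
      rw [sub_eq_add_neg, htr, inner_neg_right, mul_neg]
    have e6 : Complex.exp (((Real.pi * (D : ℝ) : ℝ) : ℂ) * inner ℂ ω y) *
        Complex.exp (-(((Real.pi * (D : ℝ) : ℝ) : ℂ) * inner ℂ ω y)) = 1 := by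
      rw [← Complex.exp_add, add_neg_cancel, Complex.exp_zero]
    rw [e1, e2, e3, e4, e5, e0, hadd, htr]
    calc _ = χ ω ^ (2 * D) * (al (Real.pi * (D : ℝ)) ω x * al (Real.pi * (D : ℝ)) ω x) *
          (p (x + y) * q (x - y)) *
          (Complex.exp (((Real.pi * (D : ℝ) : ℝ) : ℂ) * inner ℂ ω y) *
            Complex.exp (-(((Real.pi * (D : ℝ) : ℝ) : ℂ) * inner ℂ ω y))) := by ring
      _ = _ := by rw [e6, mul_one]
  · rintro D f ⟨hf1, hf2⟩
    refine ⟨hf1.comp (differentiable_id (𝕜 := ℂ) (E := V)).neg, fun ω hω x => ?_⟩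
    have z1 : χ 0 = 1 := by
      have m1 := hL.mul 0 L.zero_mem 0 L.zero_mem
      have m2 := hL.sq 0 L.zero_mem
      rw [add_zero, inner_zero_left, Complex.zero_im, Complex.ofReal_zero, mul_zero,
        Complex.exp_zero, mul_one] at m1
      rw [m1, ← pow_two, m2]
    have z2 : χ (-ω) = χ ω := by
      have m1 := hL.mul ω hω (-ω) (L.neg_mem hω)
      have m2 := hL.sq ω hω
      have m3 : (inner ℂ ω (-ω) : ℂ).im = 0 := by
        rw [inner_neg_right, inner_self_eq_norm_sq_to_K]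
        simp [← Complex.ofReal_pow]
      rw [add_neg_cancel, z1, m3, Complex.ofReal_zero, mul_zero, Complex.exp_zero,
        mul_one] at m1
      calc χ (-ω) = χ ω ^ 2 * χ (-ω) := by rw [m2, one_mul]
        _ = χ ω * (χ ω * χ (-ω)) := by ring
        _ = χ ω := by rw [← m1, mul_one]
    have z3 : al (Real.pi * (D : ℝ)) (-ω) (-x) = al (Real.pi * (D : ℝ)) ω x := by
      unfold al
      rw [inner_neg_neg, norm_neg]
    show f (-(x + ω)) = χ ω ^ D * al (Real.pi * (D : ℝ)) ω x * f (-x)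
    have e1 : -(x + ω) = -x + -ω := by abel
    have e2 : f (-x + -ω) = χ (-ω) ^ D * al (Real.pi * (D : ℝ)) (-ω) (-x) * f (-x) :=
      hf2 (-ω) (L.neg_mem hω) (-x)
    rw [e1, e2, z2, z3]

end Pool.Agent.ZES.H7
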